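import Pool.Agent.S08564

set_option autoImplicit false

namespace Pool.Agent.Results.MP_495f0d_co.Unbounded

open Pool.Agent.S08564

/-- The least natural number that is not in the finite set `S`. -/
noncomputable def mex (S : Finset ℕ) : ℕ := sInf {k : ℕ | k ∉ S}

theorem mex_eq (a : ℕ → ℕ) (m : ℕ) :
    mex ((Finset.range (m + 1)).image fun i => a i + a (m - i)) =
      sInf {k : ℕ | ∀ i : ℕ, i ≤ m → a i + a (m - i) ≠ k} := by
  unfold mex
  congr 1
  ext k
  simp [Nat.lt_succ_iff]

/-- The mex sequence generated by 2, 0, 2, 0, 2 exists, and it is unbounded and not ultimately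
periodic. -/
theorem result :
    (∃ a : ℕ → ℕ, a 0 = 2 ∧ a 1 = 0 ∧ a 2 = 2 ∧ a 3 = 0 ∧ a 4 = 2 ∧
      ∀ m, 4 ≤ m → a (m + 1) = mex ((Finset.range (m + 1)).image fun i => a i + a (m - i))) ∧
    ∀ a : ℕ → ℕ, a 0 = 2 → a 1 = 0 → a 2 = 2 → a 3 = 0 → a 4 = 2 →
      (∀ m, 4 ≤ m → a (m + 1) = mex ((Finset.range (m + 1)).image fun i => a i + a (m - i))) →
      (∀ j, 1 ≤ j → a (3 * j + 1) = j + 1) ∧
        ¬ ∃ p, 1 ≤ p ∧ ∃ k₀, ∀ k, k₀ ≤ k → a (k + p) = a k := by
  constructor
  · refine ⟨seq, by decide, by decide, by decide, by decide, by decide, fun m hm => ?_⟩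
    rw [mex_eq]
    exact seq_mex m hm
  · intro a h0 h1 h2 h3 h4 h
    have e : ∀ m, a m = seq m := by
      intro m
      induction m using Nat.strong_induction_on with
      | _ m ih =>
        by_cases hm : m ≤ 4
        · interval_cases m
          · rw [h0]; decide
          · rw [h1]; decide
          · rw [h2]; decide
          · rw [h3]; decide
          · rw [h4]; decide
        · obtain ⟨k, rfl⟩ : ∃ k, m = k + 1 := ⟨m - 1, by omega⟩
          rw [h k (by omega), mex_eq, seq_mex k (by omega)]
          congr 1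
          ext v
          simp only [Set.mem_setOf_eq]
          refine forall_congr' fun i => forall_congr' fun hi => ?_
          rw [ih i (by omega), ih (k - i) (by omega)]
    have ha : a = seq := funext e
    subst ha
    constructor
    · intro j hj
      have := seq_spec (3 * j + 1)
      omega
    · rintro ⟨p, hp, N, hN⟩
      have e1 := hN (3 * N + 4) (by omega)
      have e2 := hN (3 * N + 4 + p) (by omega)
      have e3 := hN (3 * N + 4 + p + p) (by omega)
      have e4 : seq (3 * N + 4 + p + p + p) = seq (3 * N + 4) := by rw [e3, e2, e1]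
      have h5 := seq_spec (3 * N + 4 + p + p + p)
      have h6 := seq_spec (3 * N + 4)
      omega

end Pool.Agent.Results.MP_495f0d_co.Unbounded
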