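import Pool.Agent.Lib.MP_495f0d_co.UP

set_option autoImplicit false

namespace Pool.Agent.Results.MP_495f0d_co.ZeroSet

open Pool.Agent.Lib.MP_495f0d_co

/-- If the zero set of a mex sequence is ultimately periodic, then every truncation of the
sequence is ultimately periodic. -/
theorem result :
    ∀ (a : ℕ → ℕ) (n : ℕ),
      (∀ m : ℕ, n ≤ m → a (m + 1) = sInf {k : ℕ | ∀ i : ℕ, i ≤ m → a i + a (m - i) ≠ k}) →
      (∃ p : ℕ, 0 < p ∧ ∃ N : ℕ, ∀ m : ℕ, N ≤ m → (a (m + p) = 0 ↔ a m = 0)) →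
      ∀ v : ℕ, ∃ p : ℕ, 0 < p ∧ ∃ N : ℕ, ∀ m : ℕ, N ≤ m → min (a (m + p)) v = min (a m) v := by
  intro a n h hZ v
  obtain ⟨p, hp, N, hN⟩ := UP.all (fun u m => a m = u) v fun u _ => levels a n h hZ u
  refine ⟨p, hp, N, fun m hm => ?_⟩
  rcases lt_or_ge (a m) v with c | c
  · rw [(hN _ c m hm).mpr rfl]
  · rcases lt_or_ge (a (m + p)) v with d | d
    · have := (hN _ d m hm).mp rfl
      omega
    · omega

end Pool.Agent.Results.MP_495f0d_co.ZeroSet
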